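import Pool.Agent.R509.TT.Fin1

/-!
# Products of `k` consecutive values of the Liouville function in almost all short intervals, for every
# fixed length `k`

The two point theorem at almost all scales (in the form of `Pool.Agent.Y958.TC.two`) and the theorem of
Matomaki and Radziwill are from the starting files. From Mathlib: `ArithmeticFunction.cardFactors n`: the number
of the prime factors of `n` with multiplicity.
-/

set_option autoImplicit false

namespace Pool.Agent.Results.MP_a14ce1_nt.FixedLengthShortIntervals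

open Finset Filter Topology

/-- The sum over `1 ≤ n ≤ x` of the products `λ(n) λ(n + d) ... λ(n + (k - 1) d)` of the values of the Liouville
function at `k` consecutive terms of a progression with difference `d`. For `d = 1` this is `S_k(x)`. -/
noncomputable def S (d k x : ℕ) : ℝ :=
  ∑ n ∈ Icc 1 x, ∏ i ∈ range k, (-1 : ℝ) ^ ArithmeticFunction.cardFactors (n + i * d)

/-- The contribution `S_k(x + H) - S_k(x)` of the interval `(x, x + H]`. -/
noncomputable def D (d k H x : ℕ) : ℝ := S d k (x + H) - S d k x

/-- The bound for the moment of order `j`: `1 / (j + 1)` for `j ≤ 2`, that is `1/2` for the first and `1/3` for the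
second moment, and `(4 / 3) / (j + 1)` for the higher moments. -/
noncomputable def bound (j : ℕ) : ℝ := if j ≤ 2 then 1 / ((j : ℝ) + 1) else 4 / (3 * ((j : ℝ) + 1))

open Classical in
/-- There is a set `𝓔` of positive integers of logarithmic density zero (the exceptional scales) such that for
every fixed length `k ≥ 1`, every difference `d ≥ 1` (for example `d = 1`), every exponent `j` and every `ε > 0`
there is a `C` such that for all `H ≥ C` and all `N ≥ C H` outside `𝓔` the average over `1 ≤ x ≤ N` of

`( |D_k| / H + |D_{k-1} + D_{k+1}| / (2 H) ) ^ j`, where `D_k = S_k(x + H) - S_k(x)`,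

is at most `bound j + ε`. In particular the same bounds hold for the moments of `|S_k(x + H) - S_k(x)| / H`. -/
theorem result : ∃ 𝓔 : Set ℕ,
    Tendsto (fun X : ℕ => (∑ N ∈ Icc 1 X, if N ∈ 𝓔 then (1 : ℝ) / N else 0) / Real.log X) atTop (𝓝 0) ∧
    ∀ k d j : ℕ, 1 ≤ k → 1 ≤ d → ∀ ε : ℝ, 0 < ε →
      ∃ C : ℕ, ∀ H N : ℕ, C ≤ H → C * H ≤ N → N ∉ 𝓔 →
        ∑ x ∈ Icc 1 N, (|D d k H x| / H + |D d (k - 1) H x + D d (k + 1) H x| / (2 * H)) ^ j ≤
          (bound j + ε) * N := by
  obtain ⟨E, h1, h2⟩ := Pool.Agent.R509.TT.prog2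
  refine ⟨E, h1, fun k d j hk hd ε hε => ?_⟩
  obtain ⟨C, hC⟩ := h2 (k - 1) d j hd ε hε
  refine ⟨C, fun H N hH hN hNE => ?_⟩
  have h3 : ∀ i x, D d i H x = Pool.Agent.R509.TT.W (Pool.Agent.R509.TT.pr i d) H x := by
    intro i x
    unfold D S Pool.Agent.R509.TT.W Pool.Agent.R509.TT.pr Pool.Agent.R509.TT.l
    have h4 : Icc 1 (x + H) = Ico 1 (x + 1 + H) := by
      ext n
      rw [mem_Icc, mem_Ico]
      omega
    have h5 : Icc 1 x = Ico 1 (x + 1) := by
      ext n
      rw [mem_Icc, mem_Ico]
      omega
    rw [h4, h5, ← sum_Ico_consecutive _ (by omega : 1 ≤ x + 1) (by omega : x + 1 ≤ x + 1 + H),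
      add_sub_cancel_left, sum_Ico_eq_sum_range]
    rw [Nat.add_sub_cancel_left]
  have h4 := hC H N hH hN hNE
  refine le_trans (le_of_eq ?_) h4
  apply sum_congr rfl
  intro x _
  congr 1
  rw [h3, h3, h3]
  unfold Pool.Agent.R509.TT.Z
  rw [show k - 1 + 1 = k by omega, show k - 1 + 2 = k + 1 by omega, add_div, div_div]

end Pool.Agent.Results.MP_a14ce1_nt.FixedLengthShortIntervals
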