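import Pool.Agent.R459.Half3

/-!
# Products of `k` consecutive values of the Liouville function, at every scale, for ALL the lengths `k` near almost all
members of sparse families: rearrangements of digits, palindromes, quadratic values at integers with restricted digits,
and thin families

Definitions used:
* in `Pool.Agent.R459.Half`: `prodL a e k n`: the product of the values of the Liouville function at
  `a n + e, a (n + 1) + e, ..., a (n + k - 1) + e`; `Good B W U N R a e ξ v`: for all the lengths `k` at a distance of at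
  most `R ^ W` from `v`, all the weights `ξ l` and all the intervals `(Y, X]` with `X ≤ B N`, the sum of
  `ξ l n * prodL a e k n` over `Y < n ≤ X` is at most `(X - Y) / 2 + N / R ^ U`; `energy p x s`: the number of the
  solutions of `s (v 1) + ... + s (v p) = s (w 1) + ... + s (w p)` with all `v i`, `w i` in `{1, ..., x}`;
* in `Pool.Agent.TH872.An`: `Spread b k η d`: the integers `d i` (`i < k`) are digits in base `b`, and no digit is taken
  at more than `(1 - η) k` of the `k` places `i`; `V b d σ`: the integer with the digit `d (σ i)` at the place `i`;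
* in `Pool.Agent.TH872.Tr`: `num b k E`: the number of the palindromes with exactly `k` digits in base `b` which have
  the property `E`; `value b k κ c d z`: the integer `c + κ v`, where `v` has the pair of digits `d i` at the positions
  `i` and `k - 1 - i`, for `i < k / 2`, and, if `k` is odd, the middle digit `z`; `Prob b k w u E`: the probability of
  the event `E` if the pairs `d i` and `z` are chosen independently of each other with the distributions `w i` and `u`;
  `Pairs b k η w`: the `w i` are distributions of pairs of digits, and two independent copies of the pair number `i`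
  (`i ≥ 1`) differ in both digits with a probability of at least `η`;
* in `Pool.Agent.TH872.GQ`: `S b D k`: the integers below `b ^ k` whose `i`-th digit in base `b` lies in `D i`, for all
  `i < k`; `value κ β c n = c + κ n ^ 2 + β n`.
-/

set_option autoImplicit false

namespace Pool.Agent.Results.MP_a14ce1_nt.LengthsNearDigitFamilies

open Finset Pool.Agent.R459.Half

open Classical in
/-- The number of the elements of the finite set `A` with the property `E`. -/
noncomputable def count {α : Type} (A : Finset α) (E : α → Prop) : ℝ := ((A.filter E).card : ℝ)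

lemma count_eq {α : Type} (A : Finset α) (E : α → Prop) [DecidablePred E] : count A E = ((A.filter E).card : ℝ) := by
  unfold count
  congr!

/-- Let `b ≥ 2`, `a ≥ 1`, `B`, `C`, `T`, `W`, `U`, `p`, the integers `κ ≠ 0` and `β`, and `η > 0` be fixed.

We say that the integer `v` is good if ALL the lengths `k'` at a distance of at most `k ^ W` from `v`, all of at most
`k ^ T` given real weights `ξ l`, bounded by `1`, and all the intervals `(Y, X]` with `X ≤ B N` satisfy
`|∑ ξ l n * λ(a n + e) λ(a (n + 1) + e) ... λ(a (n + k' - 1) + e)| ≤ (X - Y) / 2 + N / k ^ U` (the sum over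
`Y < n ≤ X`); for `a = 1`, `e = 0` and `ξ = 1` in particular `|S_{k'}(X)| ≤ X / 2 + N / k ^ U` for all `X ≤ B N`. Here
`N = b ^ k` (in (3): `N = b ^ (2 k)`), so that `k` is of the order of magnitude of `log N`; `k` is large, `0 ≤ e ≤ B N`,
and `c` is an arbitrary integer with `|c| ≤ B N`.

(1) Let `d` be `k` digits in base `b` none of which is taken at more than `(1 - η) k` places. For all the permutations
of the places, up to at most `k! / k ^ U` of them, the integer `c + κ v` is good, where `v` has the permuted digits.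

(2) For all the palindromes `v` with `k` digits in base `b`, up to a proportion of at most `1 / k ^ U` of them, the
integer `c + κ v` is good; and for random integers `v` whose pairs of digits at mirror positions are independent of
each other, `c + κ v` is good with a probability of at least `1 - 1 / k ^ U`.

(3) Let `D 0, ..., D (k - 1)` be arbitrary sets of at least two digits in base `b`, and `S` the set of the integers
below `b ^ k` whose `i`-th digit lies in `D i` for all `i < k`. For all the `m ∈ S`, up to at most `#S / k ^ U` of them,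
the integer `c + κ m ^ 2 + β m` is good.

(4) The same at every large scale `N`, with `log N` in place of `k`, for all the members `s m`, `m ≤ x`, of an arbitrary
family of integers in `[-B N, B N]`, up to at most `x / log ^ U N` of them, if the additive energy of order `p` of the
family is at most `log ^ C N` times the smallest possible size `x ^ (2 p) / N`. -/
theorem result (b B C T W U a p : ℕ) (hb : 2 ≤ b) (ha : 1 ≤ a) (κ β : ℤ) (hκ : κ ≠ 0) (η : ℝ) (hη : 0 < η) :
    (∃ k₀ : ℕ, ∀ k : ℕ, k₀ ≤ k → ∀ N : ℕ, N = b ^ k → ∀ c : ℤ, |c| ≤ B * (N : ℤ) → ∀ e : ℕ, e ≤ B * N →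
      ∀ (L : ℕ) (ξ : Fin L → ℕ → ℝ), (L : ℝ) ≤ (k : ℝ) ^ T → (∀ l n, |ξ l n| ≤ 1) →
        (∀ d : Fin k → ℕ, Pool.Agent.TH872.An.Spread b k η d →
          count univ (fun σ => ¬ Good B W U N k a e ξ (c + κ * (Pool.Agent.TH872.An.V b d σ : ℕ))) ≤
            k.factorial / (k : ℝ) ^ U) ∧
        (Pool.Agent.TH872.Tr.num b k (fun v => ¬ Good B W U N k a e ξ (c + κ * v)) : ℝ) ≤
          Pool.Agent.TH872.Tr.num b k (fun _ => True) / (k : ℝ) ^ U ∧
        (∀ (w : ℕ → ℕ × ℕ → ℝ) (u : ℕ → ℝ), Pool.Agent.TH872.Tr.Pairs b k η w → (∀ a, 0 ≤ u a) →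
          ∑ a ∈ range b, u a = 1 → Pool.Agent.TH872.Tr.Prob b k w u (fun d z =>
            ¬ Good B W U N k a e ξ (Pool.Agent.TH872.Tr.value b k κ c d z)) ≤ 1 / (k : ℝ) ^ U)) ∧
    (∃ k₀ : ℕ, ∀ k : ℕ, k₀ ≤ k → ∀ N : ℕ, N = b ^ (2 * k) → ∀ c : ℤ, |c| ≤ B * (N : ℤ) → ∀ e : ℕ, e ≤ B * N →
      ∀ (L : ℕ) (ξ : Fin L → ℕ → ℝ), (L : ℝ) ≤ (k : ℝ) ^ T → (∀ l n, |ξ l n| ≤ 1) →
        ∀ D : ℕ → Finset ℕ, (∀ i < k, D i ⊆ range b ∧ 2 ≤ (D i).card) →
          count (Pool.Agent.TH872.GQ.S b D k) (fun m =>
            ¬ Good B W U N k a e ξ (Pool.Agent.TH872.GQ.value κ β c m)) ≤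
              (Pool.Agent.TH872.GQ.S b D k).card / (k : ℝ) ^ U) ∧
    (∃ N₀ : ℕ, ∀ N : ℕ, N₀ ≤ N → ∀ e : ℕ, e ≤ B * N →
      ∀ (L : ℕ) (ξ : Fin L → ℕ → ℝ), (L : ℝ) ≤ Real.log N ^ T → (∀ l n, |ξ l n| ≤ 1) →
        ∀ (x : ℕ) (s : ℕ → ℤ), (∀ m ∈ Icc 1 x, |s m| ≤ B * N) →
          (energy p x s : ℝ) * N ≤ Real.log N ^ C * (x : ℝ) ^ (2 * p) →
            count (Icc 1 x) (fun m => ¬ Good B W U N (Real.log N) a e ξ (s m)) ≤ x / Real.log N ^ U) := by
  classical
  obtain ⟨k1, h1⟩ := perm_half b B T W U a hb ha κ hκ η hη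
  obtain ⟨k2, h2⟩ := mir_half b B T W U a hb ha κ hκ η hη
  obtain ⟨k3, h3⟩ := quad_half b B T W U a hb ha κ β hκ
  obtain ⟨N₀, h4⟩ := fam_half B C T W U a p ha
  refine ⟨⟨k1 + k2, ?_⟩, ⟨k3, ?_⟩, ⟨N₀, ?_⟩⟩
  · rintro k hk N rfl c hc e he L ξ hL hξ
    have hc' : |c| ≤ B * (b : ℤ) ^ k := by
      push_cast at hc
      exact hc
    obtain ⟨h5, h6⟩ := h2 k (by omega) c hc' e he L ξ hL hξ
    refine ⟨fun d hd => ?_, h6, h5⟩
    rw [count_eq]
    exact h1 k (by omega) d hd c hc' e he L ξ hL hξ _ fun σ hσ => hσ
  · rintro k hk N rfl c hc e he L ξ hL hξ D hD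
    have hc' : |c| ≤ B * (b : ℤ) ^ (2 * k) := by
      push_cast at hc
      exact hc
    rw [count_eq]
    exact h3 k hk D hD c hc' e he L ξ hL hξ _ fun m hm => hm
  · intro N hN e he L ξ hL hξ x s hs hE
    rw [count_eq]
    exact h4 N hN x s hs hE e he L ξ hL hξ _ fun m hm => hm

end Pool.Agent.Results.MP_a14ce1_nt.LengthsNearDigitFamilies
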