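import Pool.Agent.R509.CE.Half

/-!
# Products of `k` consecutive values of the Liouville function in short intervals, at all scales

From the starting files: the theorem of Matomäki, Radziwiłł and Tao on exponential sums of the Liouville
function over short intervals (`Pool.Agent.TH823.MRS`). The rest (the Cauchy-Davenport argument for the
autocorrelations of a sign sequence, the passage from short intervals to cyclic groups of prime order) is in
`Pool.Agent.R509.CD` and `Pool.Agent.R509.CE`.
From Mathlib: `ArithmeticFunction.cardFactors n`: the number of the prime factors of `n` with multiplicity;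
`Finset.Icc 1 x`: the integers from `1` to `x`; `Finset.range k`: the integers from `0` to `k - 1`.
-/

set_option autoImplicit false

namespace Pool.Agent.Results.MP_a14ce1_nt.ShortIntervalMoments

open Finset

/-- `S k x` is the sum over `1 ≤ n ≤ x` of `λ(n) λ(n + 1) ... λ(n + k - 1)`. -/
noncomputable def S (k x : ℕ) : ℝ := ∑ n ∈ Icc 1 x, ∏ i ∈ range k, (-1 : ℝ) ^ ArithmeticFunction.cardFactors (n + i)

lemma S_sub (k H n : ℕ) :
    S k (n + 1 + H) - S k (n + 1) = ∑ b ∈ range H, (Pool.Agent.R509.CE.pr k (n + b + 2) : ℝ) := by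
  unfold S
  have h1 : Icc 1 (n + 1 + H) = Icc 1 (n + 1) ∪ Ico (n + 2) (n + 2 + H) := by
    ext m
    simp only [mem_union, mem_Icc, mem_Ico]
    omega
  have h2 : Disjoint (Icc 1 (n + 1)) (Ico (n + 2) (n + 2 + H)) := by
    rw [disjoint_left]
    intro m hm hm'
    rw [mem_Icc] at hm
    rw [mem_Ico] at hm'
    omega
  rw [h1, sum_union h2, add_sub_cancel_left, sum_Ico_eq_sum_range, Nat.add_sub_cancel_left]
  apply sum_congr rfl
  intro b _
  unfold Pool.Agent.R509.CE.pr Pool.Agent.H376R2.MR.lam
  push_cast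
  apply prod_congr rfl
  intro i _
  congr 2
  ring

/-- **The increments of `S_k` over short intervals, at all scales.** For every `j` and every `ε > 0` there is a `C`
such that for all `H ≥ C` and `X ≥ C H` the average over `1 ≤ x ≤ X` and over the lengths `1 ≤ k ≤ H` of
`|(S_k (x + H) - S_k (x)) / H| ^ j` is at most `1 / (j + 1) + ε`. -/
theorem result (j : ℕ) (ε : ℝ) (hε : 0 < ε) :
    ∃ C : ℕ, ∀ H X : ℕ, C ≤ H → C * H ≤ X →
      ∑ x ∈ Icc 1 X, ∑ k ∈ Icc 1 H, |(S k (x + H) - S k x) / H| ^ j ≤ (1 / (j + 1) + ε) * X * H := by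
  obtain ⟨C, _, hC⟩ := Pool.Agent.R509.CE.main3 j ε hε
  refine ⟨C, fun H X hH hX => ?_⟩
  refine le_trans (le_of_eq ?_) (hC H X hH hX)
  rw [← Ico_succ_right_eq_Icc, sum_Ico_eq_sum_range]
  simp only [Nat.succ_eq_succ, Nat.succ_eq_add_one, Nat.add_sub_cancel]
  apply sum_congr rfl
  intro n _
  apply sum_congr rfl
  intro k _
  rw [add_comm 1 n, S_sub]

end Pool.Agent.Results.MP_a14ce1_nt.ShortIntervalMoments
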