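import Pool.Agent.R509.HL.Seq

/-!
# Products of `k` consecutive values of the Liouville function in almost all short intervals, with
# arbitrary weights

The theorem of Matomäki and Radziwiłł (with progressions) is used in the form of `Pool.Agent.TH823.MRS`, from the
starting files. From Mathlib: `ArithmeticFunction.cardFactors n`: the number of the prime factors of `n` with
multiplicity.
-/

set_option autoImplicit false

namespace Pool.Agent.Results.MP_a14ce1_nt.WeightedShortIntervals

open Finset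

/-- The product `λ(q n + c) λ(q (n + 1) + c) ... λ(q (n + k - 1) + c)` of the values of the Liouville function at `k`
consecutive terms of a progression. For `q = 1` and `c = 0` it is `λ(n) λ(n + 1) ... λ(n + k - 1)`. -/
noncomputable def prodL (q c k n : ℕ) : ℝ := ∏ i ∈ range k, (-1 : ℝ) ^ ArithmeticFunction.cardFactors (q * (n + i) + c)

/-- The matrix of the products `prodL q c k (x + n)`, `1 ≤ n, k ≤ H`, has operator norm at most `T`: for all complex
weights `v 1, ..., v H`, the sum over the lengths `k ≤ H` of `|∑_{n ≤ H} v n prodL q c k (x + n)| ^ 2` is at most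
`T ^ 2 ∑_{n ≤ H} |v n| ^ 2`. -/
def NormLe (q c x H : ℕ) (T : ℝ) : Prop :=
  ∀ v : ℕ → ℂ, ∑ k ∈ Icc 1 H, ‖∑ n ∈ Icc 1 H, v n * (prodL q c k (x + n) : ℂ)‖ ^ 2 ≤ T ^ 2 * ∑ n ∈ Icc 1 H, ‖v n‖ ^ 2

open Classical in
/-- Let `q ≥ 1` and `c` be fixed, and `ε > 0`. There is a `C` such that for all `H ≥ C` and all `X ≥ C H` (so `H`
may be bounded) the matrix of the products of `k` consecutive values, `k ≤ H`, at the places `x < n ≤ x + H` has
operator norm at most `(2/π + ε) H` for all but at most `ε X` of the integers `x ≤ X`.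

So for almost all short intervals `(x, x + H]` and all weights `v` bounded by `1`, which may depend on the interval, the
weighted sums `∑_{x < n ≤ x + H} v(n) λ(n) λ(n + 1) ... λ(n + k - 1)` are at most `(2/π + ε) H` in quadratic mean
over `k ≤ H`. For `v = 1` these are the increments `S_k(x + H) - S_k(x)`. -/
theorem result (q c : ℕ) (hq : 1 ≤ q) (ε : ℝ) (hε : 0 < ε) :
    ∃ C : ℕ, ∀ H X : ℕ, C ≤ H → C * H ≤ X →
      (((Icc 1 X).filter (fun x => ¬ NormLe q c x H ((2 / Real.pi + ε) * H))).card : ℝ) ≤ ε * X := by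
  set δ : ℝ := min ε (ε ^ 2) with hδ
  have hδ0 : 0 < δ := lt_min hε (by positivity)
  obtain ⟨C, hC⟩ := Pool.Agent.R509.HL.lam_prod q c hq δ hδ0
  refine ⟨C, fun H X hH hX => ?_⟩
  have h1 := hC H X hH hX
  have h2 : δ * X ≤ ε * X := mul_le_mul_of_nonneg_right (min_le_left _ _) (Nat.cast_nonneg X)
  refine le_trans ?_ (h1.trans h2)
  have h3 : (Icc 1 X).filter (fun x => ¬ NormLe q c x H ((2 / Real.pi + ε) * H)) ⊆
      (Icc 1 X).filter (fun x => ¬ ∀ v : ℕ → ℂ,
        ∑ k ∈ Icc 1 H, ‖∑ n ∈ Icc 1 H, v n * ((∏ i ∈ range k, Pool.Agent.R509.HK.lq q c (x + n + i) : ℝ) : ℂ)‖ ^ 2 ≤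
        (4 / Real.pi ^ 2 + δ) * H ^ 2 * ∑ n ∈ Icc 1 H, ‖v n‖ ^ 2) := by
    intro x hx
    rw [mem_filter] at hx ⊢
    refine ⟨hx.1, fun hcon => hx.2 fun v => ?_⟩
    refine (hcon v).trans ?_
    apply mul_le_mul_of_nonneg_right _ (by positivity)
    rw [mul_pow]
    apply mul_le_mul_of_nonneg_right _ (by positivity)
    have hpi := Real.pi_pos
    have e1 : (2 / Real.pi + ε) ^ 2 = 4 / Real.pi ^ 2 + 4 / Real.pi * ε + ε ^ 2 := by field_simp; ring
    rw [e1]
    have h4 : δ ≤ ε ^ 2 := min_le_right _ _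
    have h5 : 0 ≤ 4 / Real.pi * ε := by positivity
    linarith
  exact_mod_cast card_le_card h3

end Pool.Agent.Results.MP_a14ce1_nt.WeightedShortIntervals
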